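import Pool.Agent.P8H97.GW.Stm
import Pool.Agent.W66.ZA
import Pool.Agent.H295R2.Lap
import Pool.Agent.W150.WM.Inv
import Pool.Agent.H353R3.S8

/-!
# Project GW: the Laplace transform of `M(e^v)` under the Riemann hypothesis
-/

set_option autoImplicit false

open Complex Set Filter Topology MeasureTheory

namespace Pool.Agent.P8H52.GW

open Pool.Agent.P8H97.GW Pool.Agent.W66
open Pool.Agent.H295R2 (Nice)

lemma Mx_eq (u : ℝ) : Mx u = Pool.Agent.W120.WM.Mx u := rfl

lemma free_of_rh (hRH : RiemannHypothesis) : ∀ s : ℂ, 1 / 2 < s.re → riemannZeta s ≠ 0 := by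
  intro s hs h0
  have h1 : s.re < 1 := by
    by_contra h
    exact riemannZeta_ne_zero_of_one_le_re (not_lt.1 h) h0
  have := hRH s h0 (by
    rintro ⟨n, hn⟩
    rw [hn] at hs
    have h2 : (-2 * ((n:ℂ) + 1)).re = -2 * ((n:ℝ) + 1) := by simp
    rw [h2] at hs
    have : (0:ℝ) ≤ n := Nat.cast_nonneg n
    linarith) (by
    rintro rfl
    norm_num at h1)
  linarith

lemma nice_Mx (hRH : RiemannHypothesis) (θ : ℝ) (hθ : 1 / 2 < θ) :
    ∃ C : ℝ, Nice (fun v : ℝ => ((Mx (Real.exp v) : ℝ) : ℂ)) C θ 0 := by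
  obtain ⟨C, hC⟩ := H353.mertens_of_free (1 / 2) le_rfl (free_of_rh hRH) θ hθ
  have hC0 : 0 ≤ C := by
    have := (abs_nonneg _).trans (hC 1 le_rfl)
    simpa using this
  refine ⟨C, ⟨?_, ?_, ?_⟩⟩
  · exact Complex.measurable_ofReal.comp Pool.Agent.W150.WM.mx_meas
  · intro u
    rw [Complex.norm_real, Real.norm_eq_abs]
    rcases lt_or_ge u 0 with hu | hu
    · rw [Mx_eq, Pool.Agent.W150.WM.mx_zero hu, abs_zero]
      positivity
    · have h1 := hC (Real.exp u) (Real.one_le_exp hu)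
      rw [← Real.exp_mul, mul_comm u θ] at h1
      exact h1
  · intro u hu
    rw [Mx_eq, Pool.Agent.W150.WM.mx_zero hu, Complex.ofReal_zero]

theorem lap : S_LAP := by
  intro hRH s hs hs1
  have hdiff : ∀ z : ℂ, 1 / 2 < z.re → DifferentiableAt ℂ
      (Pool.Agent.H295R2.Lap (fun v : ℝ => ((Mx (Real.exp v) : ℝ) : ℂ))) z := by
    intro z hz
    obtain ⟨C, hC⟩ := nice_Mx hRH ((1 / 2 + z.re) / 2) (by linarith)
    exact hC.Lap_differentiableAt (by linarith)
  obtain ⟨C, hC⟩ := nice_Mx hRH ((1 / 2 + s.re) / 2) (by linarith)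
  refine ⟨hC.integrable (by linarith), ?_⟩
  set L := Pool.Agent.H295R2.Lap (fun v : ℝ => ((Mx (Real.exp v) : ℝ) : ℂ)) with hL
  set U : Set ℂ := {z : ℂ | 1 / 2 < z.re} with hU
  have hUo : IsOpen U := isOpen_lt continuous_const Complex.continuous_re
  have hUc : Convex ℝ U := convex_halfSpace_re_gt _
  have hF : AnalyticOnNhd ℂ (fun z => z * Z1 z * L z) U := by
    apply DifferentiableOn.analyticOnNhd _ hUo
    intro z hz
    exact ((differentiableAt_id.mul (Z1_diff z)).mul (hdiff z hz)).differentiableWithinAt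
  have hG : AnalyticOnNhd ℂ (fun z : ℂ => z - 1) U := by
    apply DifferentiableOn.analyticOnNhd _ hUo
    intro z _
    exact (differentiableAt_id.sub_const 1).differentiableWithinAt
  have h2 : (2 : ℂ) ∈ U := by
    change (1 : ℝ) / 2 < (2 : ℂ).re
    norm_num
  have hev : (fun z => z * Z1 z * L z) =ᶠ[𝓝 (2 : ℂ)] (fun z : ℂ => z - 1) := by
    have h3 : ∀ᶠ z in 𝓝 (2 : ℂ), 1 < z.re :=
      (continuous_re.tendsto (2 : ℂ)).eventually (lt_mem_nhds (by norm_num))
    filter_upwards [h3] with z hz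
    have hz1 : z ≠ 1 := by
      rintro rfl
      norm_num at hz
    have hz0 : z ≠ 0 := by
      rintro rfl
      norm_num at hz
    have hζ := riemannZeta_ne_zero_of_one_le_re hz.le
    have h4 : L z = (z * riemannZeta z)⁻¹ := (Pool.Agent.W150.WM.inv_zeta z hz).symm
    rw [h4, Z1_eq hz1]
    field_simp
  have heq := hF.eqOn_of_preconnected_of_eventuallyEq hG hUc.isPreconnected h2 hev
  have h5 : s * Z1 s * L s = s - 1 := heq (show s ∈ U from hs)
  rw [Z1_eq hs1] at h5
  have h6 : s * riemannZeta s * L s = 1 := by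
    have hne : s - 1 ≠ 0 := sub_ne_zero.mpr hs1
    apply mul_left_cancel₀ hne
    linear_combination h5
  change L s = (s * riemannZeta s)⁻¹
  exact eq_inv_of_mul_eq_one_right h6

end Pool.Agent.P8H52.GW
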