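import Pool.Agent.P8H97.GW.Stm
import Pool.Agent.W150.WM.Inv
import Pool.Agent.W190.A17

/-!
# Project GW: the bound on the windows implies the Riemann hypothesis
-/

set_option autoImplicit false

open Set Filter Topology MeasureTheory

namespace Pool.Agent.P8H52.GW

open Pool.Agent.P8H97.GW

lemma cov_exp (g : ℝ → ℝ) {a b : ℝ} (hab : a ≤ b) :
    ∫ u in (Real.exp a)..(Real.exp b), g u = ∫ v in a..b, Real.exp v * g (Real.exp v) := by
  rw [intervalIntegral.integral_of_le (Real.exp_le_exp.mpr hab), intervalIntegral.integral_of_le hab]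
  have himg : Real.exp '' Ioc a b = Ioc (Real.exp a) (Real.exp b) := by
    ext u
    constructor
    · rintro ⟨y, hy, rfl⟩
      exact ⟨Real.exp_lt_exp.mpr hy.1, Real.exp_le_exp.mpr hy.2⟩
    · intro hu
      have hu0 : 0 < u := (Real.exp_pos a).trans hu.1
      refine ⟨Real.log u, ⟨?_, ?_⟩, Real.exp_log hu0⟩
      · rw [Real.lt_log_iff_exp_lt hu0]
        exact hu.1
      · rw [Real.log_le_iff_le_exp hu0]
        exact hu.2
  rw [← himg, integral_image_eq_integral_abs_deriv_smul measurableSet_Ioc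
    (fun x _ => (Real.hasDerivAt_exp x).hasDerivWithinAt) Real.exp_injective.injOn]
  apply setIntegral_congr_fun measurableSet_Ioc
  intro v _
  simp only [smul_eq_mul, abs_of_pos (Real.exp_pos v)]

lemma ii_bdd {g : ℝ → ℝ} (hg : Measurable g) {a b B : ℝ} (hab : a ≤ b)
    (h : ∀ x ∈ Ioc a b, |g x| ≤ B) : IntervalIntegrable g volume a b := by
  rw [intervalIntegrable_iff_integrableOn_Ioc_of_le hab]
  refine Measure.integrableOn_of_bounded (M := B) (by simp) hg.aestronglyMeasurable ?_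
  rw [ae_restrict_iff' measurableSet_Ioc]
  exact Eventually.of_forall fun x hx => h x hx

lemma Mx_meas : Measurable Mx := by
  have h1 : Measurable (fun n : ℕ => ∑ k ∈ Finset.Icc 1 n,
      ((ArithmeticFunction.moebius k : ℤ) : ℝ)) := measurable_from_top
  exact h1.comp Nat.measurable_floor

lemma Mx_abs (u : ℝ) (hu : 0 ≤ u) : |Mx u| ≤ u :=
  (Pool.Agent.W150.WM.mx_abs_le u).trans (Nat.floor_le hu)

lemma ff_meas : Measurable ff := by
  unfold ff
  exact ((Mx_meas.comp Real.measurable_exp).pow_const 2).mul (by fun_prop)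

lemma ff_nonneg (v : ℝ) : 0 ≤ ff v := mul_nonneg (sq_nonneg _) (Real.exp_pos _).le

lemma ff_le (v : ℝ) : ff v ≤ Real.exp v := by
  unfold ff
  have h := Mx_abs (Real.exp v) (Real.exp_pos v).le
  have h2 : Mx (Real.exp v) ^ 2 ≤ Real.exp v ^ 2 := by
    rw [← sq_abs]
    exact pow_le_pow_left₀ (abs_nonneg _) h 2
  calc Mx (Real.exp v) ^ 2 * Real.exp (-v) ≤ Real.exp v ^ 2 * Real.exp (-v) :=
        mul_le_mul_of_nonneg_right h2 (Real.exp_pos _).le
    _ = Real.exp v := by
        rw [pow_two, mul_assoc, ← Real.exp_add]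
        simp

lemma ff_ii {a b : ℝ} (hab : a ≤ b) : IntervalIntegrable ff volume a b :=
  ii_bdd ff_meas hab (B := Real.exp b) fun x hx => by
    rw [abs_of_nonneg (ff_nonneg x)]
    exact (ff_le x).trans (Real.exp_le_exp.mpr hx.2)

lemma key {a b T : ℝ} (hab : a ≤ b) (hT : 0 < T) :
    ∫ u in (Real.exp a)..(Real.exp b), |Mx u| ≤
      (T * (Real.exp b - Real.exp a) + T⁻¹ * (Real.exp (2 * b) * ∫ v in a..b, ff v)) / 2 := by
  have hle : Real.exp a ≤ Real.exp b := Real.exp_le_exp.mpr hab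
  have i1 : IntervalIntegrable (fun u => |Mx u|) volume (Real.exp a) (Real.exp b) := by
    apply ii_bdd (B := Real.exp b) (continuous_abs.measurable.comp Mx_meas) hle
    intro x hx
    change |(|Mx x|)| ≤ _
    rw [abs_abs]
    exact (Mx_abs x ((Real.exp_pos a).le.trans hx.1.le)).trans hx.2
  have i2 : IntervalIntegrable (fun u => Mx u ^ 2) volume (Real.exp a) (Real.exp b) := by
    apply ii_bdd (B := Real.exp b ^ 2) (Mx_meas.pow_const 2) hle
    intro x hx
    rw [abs_pow]
    exact pow_le_pow_left₀ (abs_nonneg _)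
      ((Mx_abs x ((Real.exp_pos a).le.trans hx.1.le)).trans hx.2) 2
  have h1 : ∫ u in (Real.exp a)..(Real.exp b), |Mx u| ≤
      ∫ u in (Real.exp a)..(Real.exp b), (T / 2 + (T⁻¹ / 2) * Mx u ^ 2) := by
    apply intervalIntegral.integral_mono_on hle i1 (intervalIntegrable_const.add (i2.const_mul _))
    intro u _
    have h3 : 0 ≤ (T - |Mx u|) ^ 2 := sq_nonneg _
    have h4 : |Mx u| ^ 2 = Mx u ^ 2 := sq_abs _
    have h5 : T / 2 + (T⁻¹ / 2) * Mx u ^ 2 - |Mx u| = (T - |Mx u|) ^ 2 * (T⁻¹ / 2) := by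
      rw [← h4]
      field_simp
      ring
    have h6 : 0 ≤ (T - |Mx u|) ^ 2 * (T⁻¹ / 2) := by positivity
    linarith
  refine h1.trans ?_
  rw [intervalIntegral.integral_add intervalIntegrable_const (i2.const_mul _),
    intervalIntegral.integral_const, intervalIntegral.integral_const_mul, smul_eq_mul,
    cov_exp (fun u => Mx u ^ 2) hab]
  have h2 : ∫ v in a..b, Real.exp v * Mx (Real.exp v) ^ 2 ≤
      Real.exp (2 * b) * ∫ v in a..b, ff v := by
    rw [← intervalIntegral.integral_const_mul]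
    apply intervalIntegral.integral_mono_on hab
    · apply ii_bdd (B := Real.exp b * Real.exp b ^ 2)
        (Real.measurable_exp.mul ((Mx_meas.comp Real.measurable_exp).pow_const 2)) hab
      intro x hx
      change |Real.exp x * Mx (Real.exp x) ^ 2| ≤ _
      rw [abs_mul, abs_of_pos (Real.exp_pos x), abs_pow]
      have := (Mx_abs (Real.exp x) (Real.exp_pos x).le).trans (Real.exp_le_exp.mpr hx.2)
      have h3 := Real.exp_le_exp.mpr hx.2
      gcongr
    · exact (ff_ii hab).const_mul _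
    · intro v hv
      unfold ff
      have h3 : Real.exp v = Real.exp (2 * v) * Real.exp (-v) := by
        rw [← Real.exp_add]; ring_nf
      have h4 : Real.exp (2 * v) ≤ Real.exp (2 * b) := Real.exp_le_exp.mpr (by linarith [hv.2])
      calc Real.exp v * Mx (Real.exp v) ^ 2
          = Real.exp (2 * v) * (Mx (Real.exp v) ^ 2 * Real.exp (-v)) := by
            linear_combination (Mx (Real.exp v) ^ 2) * h3
        _ ≤ _ := mul_le_mul_of_nonneg_right h4 (mul_nonneg (sq_nonneg _) (Real.exp_pos _).le)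
  have h7 := mul_le_mul_of_nonneg_left h2 (show 0 ≤ T⁻¹ / 2 by positivity)
  linarith

theorem rhw : S_RHW := by
  intro α δ hα hδ hW
  obtain ⟨C, hC⟩ := hW
  by_contra hRH
  have hz : ∃ s : ℂ, riemannZeta s = 0 ∧ 1 / 2 < s.re := by
    by_contra h
    push Not at h
    exact hRH (Pool.Agent.W190.rh_free.mpr fun s hs h0 => absurd hs (not_lt.mpr (h s h0)))
  obtain ⟨s, hs0, hs⟩ := hz
  set θ : ℝ := (1 / 2 + s.re) / 2 with hθ
  have hθ1 : 1 / 2 < θ := by rw [hθ]; linarith
  have hθs : θ < s.re := by rw [hθ]; linarith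
  set θ' : ℝ := (1 / 2 + θ) / 2 with hθ'
  have hθ'1 : 1 / 2 < θ' := by rw [hθ']; linarith
  have hθ'2 : θ' < θ := by rw [hθ']; linarith
  have hc : 0 < Real.exp δ - 1 := by
    have := Real.add_one_lt_exp hδ.ne'
    linarith
  have h1 := Pool.Agent.W190.moebius_window (κ := 0) (δ := 0) le_rfl hc (by norm_num) hθ1.le
    (by nlinarith [sq_nonneg (2 * θ - 1)]) ⟨s, hs0, hθs⟩
  have hx : Tendsto (fun k : ℕ => Real.exp ((k : ℝ) / α)) atTop atTop :=
    Real.tendsto_exp_atTop.comp (tendsto_natCast_atTop_atTop.atTop_div_const hα)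
  have h2 := hx.eventually h1
  -- the integrals over the single windows
  have hone : ∀ k : ℕ, ∫ v in ((k : ℝ) / α)..((k : ℝ) / α + δ), ff v ≤ C * ((k : ℝ) + 1) := by
    intro k
    have h3 := hC (k + 1) (by omega)
    rw [Finset.sum_range_succ] at h3
    have h4 : 0 ≤ ∑ x ∈ Finset.range k, ∫ v in ((x : ℝ) / α)..((x : ℝ) / α + δ), ff v :=
      Finset.sum_nonneg fun x _ => intervalIntegral.integral_nonneg (by linarith)
        fun v _ => ff_nonneg v
    push_cast at h3
    linarith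
  -- the upper bound
  have h3 : ∀ k : ℕ, ∫ y in (Real.exp ((k : ℝ) / α))..(Real.exp ((k : ℝ) / α) +
      (Real.exp δ - 1) * Real.exp ((k : ℝ) / α)), |Mx y| ≤
      (Real.exp (θ' * (k / α)) * ((Real.exp δ - 1) * Real.exp (k / α)) +
        Real.exp (-(θ' * (k / α))) * (Real.exp (2 * (k / α + δ)) * (C * (k + 1)))) / 2 := by
    intro k
    have e1 : Real.exp ((k : ℝ) / α) + (Real.exp δ - 1) * Real.exp ((k : ℝ) / α) =
        Real.exp ((k : ℝ) / α + δ) := by
      rw [Real.exp_add]; ring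
    rw [e1]
    refine (key (T := Real.exp (θ' * (k / α))) (by linarith) (Real.exp_pos _)).trans ?_
    rw [← Real.exp_neg]
    have e2 : Real.exp ((k : ℝ) / α + δ) - Real.exp ((k : ℝ) / α) =
        (Real.exp δ - 1) * Real.exp ((k : ℝ) / α) := by
      rw [Real.exp_add]; ring
    rw [e2]
    have := hone k
    gcongr
  have h4 : ∀ᶠ k : ℕ in atTop, 1 < ((Real.exp δ - 1) * Real.exp (-((θ - θ') / α)) ^ k +
      Real.exp (2 * δ) * C * (((k : ℝ) + 1) * Real.exp (-((θ + θ' - 1) / α)) ^ k)) / 2 := by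
    filter_upwards [h2] with k hk
    have h5 := hk 0 (by simp)
    simp only [Real.rpow_zero, div_one, Polynomial.eval_zero, sub_zero] at h5
    have h6 := lt_of_lt_of_le h5 (h3 k)
    rw [← Real.exp_mul] at h6
    have hE : 0 < Real.exp ((k : ℝ) / α * (1 + θ)) := Real.exp_pos _
    have h7 : 1 < ((Real.exp (θ' * (k / α)) * ((Real.exp δ - 1) * Real.exp (k / α)) +
        Real.exp (-(θ' * (k / α))) * (Real.exp (2 * (k / α + δ)) * (C * (k + 1)))) / 2) /
        Real.exp ((k : ℝ) / α * (1 + θ)) := by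
      rw [lt_div_iff₀ hE, one_mul]
      exact h6
    refine lt_of_lt_of_le h7 (le_of_eq ?_)
    rw [div_eq_mul_inv _ (Real.exp ((k : ℝ) / α * (1 + θ))), ← Real.exp_neg, ← Real.exp_nat_mul,
      ← Real.exp_nat_mul]
    have e3 : Real.exp (θ' * (k / α)) * Real.exp (k / α) * Real.exp (-((k : ℝ) / α * (1 + θ))) =
        Real.exp (k * -((θ - θ') / α)) := by
      rw [← Real.exp_add, ← Real.exp_add]
      congr 1
      field_simp
      ring
    have e4 : Real.exp (-(θ' * (k / α))) * Real.exp (2 * (k / α + δ)) *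
        Real.exp (-((k : ℝ) / α * (1 + θ))) =
        Real.exp (2 * δ) * Real.exp (k * -((θ + θ' - 1) / α)) := by
      rw [← Real.exp_add, ← Real.exp_add, ← Real.exp_add]
      congr 1
      field_simp
      ring
    linear_combination ((Real.exp δ - 1) / 2) * e3 + (C * (k + 1) / 2) * e4
  have hr1 : Real.exp (-((θ - θ') / α)) < 1 := by
    rw [Real.exp_lt_one_iff]
    have : 0 < (θ - θ') / α := div_pos (by linarith) hα
    linarith
  have hr2 : Real.exp (-((θ + θ' - 1) / α)) < 1 := by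
    rw [Real.exp_lt_one_iff]
    have : 0 < (θ + θ' - 1) / α := div_pos (by linarith) hα
    linarith
  have t1 := tendsto_pow_atTop_nhds_zero_of_lt_one (Real.exp_pos _).le hr1
  have t2 := tendsto_pow_atTop_nhds_zero_of_lt_one (Real.exp_pos _).le hr2
  have t3 := tendsto_self_mul_const_pow_of_lt_one (Real.exp_pos _).le hr2
  have t4 : Tendsto (fun k : ℕ => ((Real.exp δ - 1) * Real.exp (-((θ - θ') / α)) ^ k +
      Real.exp (2 * δ) * C * (((k : ℝ) + 1) * Real.exp (-((θ + θ' - 1) / α)) ^ k)) / 2) atTop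
      (𝓝 (((Real.exp δ - 1) * 0 + Real.exp (2 * δ) * C * (0 + 0)) / 2)) := by
    have t5 : Tendsto (fun k : ℕ => ((k : ℝ) + 1) * Real.exp (-((θ + θ' - 1) / α)) ^ k) atTop
        (𝓝 (0 + 0)) := by
      have := t3.add t2
      refine this.congr fun k => ?_
      ring
    exact ((t1.const_mul _).add (t5.const_mul _)).div_const 2
  have t6 : ((Real.exp δ - 1) * 0 + Real.exp (2 * δ) * C * (0 + 0)) / 2 < (1 : ℝ) := by simp
  have h8 := t4.eventually (gt_mem_nhds t6)
  obtain ⟨k, hk1, hk2⟩ := (h4.and h8).exists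
  exact lt_asymm hk1 hk2

end Pool.Agent.P8H52.GW
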