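import Pool.Agent.P8H97.GW.Stm
import Pool.Agent.P8H52.GW.Rhw
import Pool.Agent.Results.MP_323ce2_nt.AlmostPeriodicity
import Pool.Agent.Results.MP_323ce2_nt.ZeroSumCriterion

/-!
# Project GW: the limit under the weak Mertens hypothesis
-/

set_option autoImplicit false

open Set Filter Topology MeasureTheory
open scoped ComplexConjugate

namespace Pool.Agent.P8H52.GW

open Pool.Agent.P8H97.GW

/-- the mean over the windows -/
noncomputable def WW (α δ : ℝ) (g : ℝ → ℝ) (K : ℕ) : ℝ :=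
  (∑ k ∈ Finset.range K, ∫ v in ((k : ℝ) / α)..((k : ℝ) / α + δ), g v) / K

/-- the complex mean over the windows -/
noncomputable def WC (α δ : ℝ) (g : ℝ → ℂ) (K : ℕ) : ℂ :=
  (∑ k ∈ Finset.range K, ∫ v in ((k : ℝ) / α)..((k : ℝ) / α + δ), g v) / K

lemma WC_exp (α δ ξ : ℝ) (hα : 0 < α) (hξ : ∀ m : ℤ, ξ ≠ 2 * Real.pi * m * α) :
    Tendsto (WC α δ (fun v => Complex.exp (ξ * v * Complex.I))) atTop (𝓝 0) := by
  set w : ℂ := Complex.exp ((ξ / α : ℝ) * Complex.I) with hw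
  have hw1 : w ≠ 1 := by
    intro h
    rw [hw, Complex.exp_eq_one_iff] at h
    obtain ⟨m, hm⟩ := h
    have h2 := congrArg Complex.im hm
    simp at h2
    apply hξ m
    rw [div_eq_iff hα.ne'] at h2
    rw [h2]
    ring
  have hwn : ‖w‖ = 1 := Complex.norm_exp_ofReal_mul_I _
  set I0 : ℂ := ∫ v in (0 : ℝ)..δ, Complex.exp (ξ * v * Complex.I) with hI0
  have h1 : ∀ k : ℕ, ∫ v in ((k : ℝ) / α)..((k : ℝ) / α + δ), Complex.exp (ξ * v * Complex.I) =
      w ^ k * I0 := by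
    intro k
    have h2 := intervalIntegral.integral_comp_add_right
      (fun v : ℝ => Complex.exp (ξ * v * Complex.I)) ((k : ℝ) / α) (a := 0) (b := δ)
    rw [zero_add, add_comm δ] at h2
    rw [← h2, hI0, ← intervalIntegral.integral_const_mul]
    congr 1
    funext v
    rw [hw, ← Complex.exp_nat_mul, ← Complex.exp_add]
    congr 1
    push_cast
    ring
  have h3 : ∀ K : ℕ, ‖WC α δ (fun v => Complex.exp (ξ * v * Complex.I)) K‖ ≤
      (2 / ‖w - 1‖ * ‖I0‖) / K := by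
    intro K
    unfold WC
    rw [Finset.sum_congr rfl fun k _ => h1 k, ← Finset.sum_mul, geom_sum_eq hw1, norm_div,
      norm_mul, norm_div, Complex.norm_natCast]
    have h4 : ‖w ^ K - 1‖ ≤ 2 := by
      refine (norm_sub_le _ _).trans ?_
      rw [norm_pow, hwn, one_pow, norm_one]
      norm_num
    gcongr
  apply squeeze_zero_norm h3
  exact tendsto_const_div_atTop_nhds_zero_nat _

lemma WC_one (α δ : ℝ) (c : ℂ) : Tendsto (WC α δ (fun _ => c)) atTop (𝓝 (δ * c)) := by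
  apply tendsto_const_nhds.congr'
  filter_upwards [eventually_ge_atTop 1] with K hK
  unfold WC
  have hK0 : (K : ℂ) ≠ 0 := by exact_mod_cast (by omega : K ≠ 0)
  simp only [intervalIntegral.integral_const, add_sub_cancel_left, Finset.sum_const,
    Finset.card_range, nsmul_eq_mul, Complex.real_smul]
  field_simp

lemma WW_mono {α δ : ℝ} (hδ : 0 < δ) {g h : ℝ → ℝ} (K : ℕ)
    (hg : ∀ a b : ℝ, a ≤ b → IntervalIntegrable g volume a b)
    (hh : ∀ a b : ℝ, a ≤ b → IntervalIntegrable h volume a b) (hgh : ∀ v, g v ≤ h v) :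
    WW α δ g K ≤ WW α δ h K := by
  unfold WW
  apply div_le_div_of_nonneg_right _ (Nat.cast_nonneg K)
  refine Finset.sum_le_sum fun k _ => ?_
  exact intervalIntegral.integral_mono_on (by linarith) (hg _ _ (by linarith))
    (hh _ _ (by linarith)) fun v _ => hgh v

lemma WW_lin {α δ : ℝ} (hδ : 0 < δ) {g h : ℝ → ℝ} (K : ℕ) (x y : ℝ)
    (hg : ∀ a b : ℝ, a ≤ b → IntervalIntegrable g volume a b)
    (hh : ∀ a b : ℝ, a ≤ b → IntervalIntegrable h volume a b) :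
    WW α δ (fun v => x * g v + y * h v) K = x * WW α δ g K + y * WW α δ h K := by
  unfold WW
  have h1 : ∀ k : ℕ, ∫ v in ((k : ℝ) / α)..((k : ℝ) / α + δ), (x * g v + y * h v) =
      x * (∫ v in ((k : ℝ) / α)..((k : ℝ) / α + δ), g v) +
      y * ∫ v in ((k : ℝ) / α)..((k : ℝ) / α + δ), h v := by
    intro k
    rw [intervalIntegral.integral_add ((hg _ _ (by linarith)).const_mul x)
      ((hh _ _ (by linarith)).const_mul y), intervalIntegral.integral_const_mul,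
      intervalIntegral.integral_const_mul]
  rw [Finset.sum_congr rfl fun k _ => h1 k, Finset.sum_add_distrib, ← Finset.mul_sum,
    ← Finset.mul_sum]
  ring

/-- the windows are disjoint -/
lemma WW_le {α δ : ℝ} (hα : 0 < α) (hδ : 0 < δ) (hδα : δ ≤ 1 / α) {g : ℝ → ℝ} (K : ℕ)
    (hg : ∀ a b : ℝ, a ≤ b → IntervalIntegrable g volume a b) (h0 : ∀ v, 0 ≤ g v) :
    WW α δ g K ≤ 1 / α * ((∫ v in (0 : ℝ)..((K : ℝ) / α), g v) / ((K : ℝ) / α)) := by
  rcases Nat.eq_zero_or_pos K with rfl | hK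
  · simp [WW]
  have hK0 : (0 : ℝ) < K := by exact_mod_cast hK
  have e1 : 1 / α * ((∫ v in (0 : ℝ)..((K : ℝ) / α), g v) / ((K : ℝ) / α)) =
      (∫ v in (0 : ℝ)..((K : ℝ) / α), g v) / K := by
    field_simp
  rw [e1]
  unfold WW
  apply div_le_div_of_nonneg_right _ hK0.le
  have h1 := intervalIntegral.sum_integral_adjacent_intervals (f := g) (μ := volume)
    (a := fun k : ℕ => (k : ℝ) / α) (n := K) (fun k _ => hg _ _ (by
      apply div_le_div_of_nonneg_right _ hα.le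
      push_cast
      linarith))
  simp only [Nat.cast_zero, zero_div] at h1
  rw [← h1]
  refine Finset.sum_le_sum fun k _ => ?_
  have h2 : (k : ℝ) / α + δ ≤ ((k + 1 : ℕ) : ℝ) / α := by
    push_cast
    rw [add_div]
    linarith
  rw [← intervalIntegral.integral_add_adjacent_intervals (hg _ _ (by linarith)) (hg _ _ h2)]
  have h3 : 0 ≤ ∫ v in ((k : ℝ) / α + δ)..(((k + 1 : ℕ) : ℝ) / α), g v :=
    intervalIntegral.integral_nonneg h2 fun v _ => h0 v
  linarith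

lemma sq_le {a b : ℂ} {η : ℝ} (hη : 0 < η) :
    ‖a‖ ^ 2 ≤ (1 + η) * ‖b‖ ^ 2 + (1 + 1 / η) * ‖a - b‖ ^ 2 := by
  have h1 : ‖a‖ ≤ ‖b‖ + ‖a - b‖ := by
    calc ‖a‖ = ‖b + (a - b)‖ := by ring_nf
      _ ≤ _ := norm_add_le _ _
  set p := ‖b‖
  set q := ‖a - b‖
  have h2 : 2 * p * q ≤ η * p ^ 2 + q ^ 2 / η := by
    have h3 : 0 ≤ (η * p - q) ^ 2 / η := by positivity
    have h4 : (η * p - q) ^ 2 / η = η * p ^ 2 - 2 * p * q + q ^ 2 / η := by
      field_simp
      ring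
    linarith
  have h5 : ‖a‖ ^ 2 ≤ (p + q) ^ 2 := pow_le_pow_left₀ (norm_nonneg _) h1 2
  have h6 : (1 + 1 / η) * q ^ 2 = q ^ 2 + q ^ 2 / η := by
    field_simp
  rw [h6]
  nlinarith

/-- the sum over finitely many zeros -/
noncomputable def PZ (Z : Finset NT) (v : ℝ) : ℂ :=
  ∑ ρ ∈ Z, Complex.exp (((ρ : ℂ) - 1 / 2) * v) / ((ρ : ℂ) * deriv riemannZeta ρ)

/-- the terms of the series -/
noncomputable def tt (ρ : NT) : ℝ := 1 / ‖(ρ : ℂ) * deriv riemannZeta ρ‖ ^ 2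

lemma PZ_cont (Z : Finset NT) : Continuous (PZ Z) := by
  unfold PZ
  fun_prop

lemma PZ_sq (Z : Finset NT) (hre : ∀ ρ : NT, (ρ : ℂ).re = 1 / 2) (v : ℝ) :
    ((‖PZ Z v‖ ^ 2 : ℝ) : ℂ) = ∑ ρ ∈ Z, ∑ ρ' ∈ Z,
      (((ρ : ℂ) * deriv riemannZeta ρ)⁻¹ * conj (((ρ' : ℂ) * deriv riemannZeta ρ')⁻¹)) *
        Complex.exp (((((ρ : ℂ).im - (ρ' : ℂ).im : ℝ)) : ℂ) * v * Complex.I) := by
  rw [Complex.ofReal_pow, ← Complex.mul_conj']
  unfold PZ
  rw [map_sum, Finset.sum_mul_sum]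
  refine Finset.sum_congr rfl fun ρ _ => Finset.sum_congr rfl fun ρ' _ => ?_
  have h1 : ∀ ρ : NT, (ρ : ℂ) - 1 / 2 = ((ρ : ℂ).im : ℂ) * Complex.I := by
    intro ρ
    apply Complex.ext
    · simp [hre ρ]
    · simp
  rw [h1, h1, map_div₀, ← Complex.exp_conj]
  simp only [map_mul, Complex.conj_ofReal, Complex.conj_I, div_eq_mul_inv, map_inv₀]
  have h2 : Complex.exp (((((ρ : ℂ).im - (ρ' : ℂ).im : ℝ)) : ℂ) * v * Complex.I) =
      Complex.exp (((ρ : ℂ).im : ℂ) * Complex.I * v) *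
        Complex.exp (((ρ' : ℂ).im : ℂ) * -Complex.I * v) := by
    rw [← Complex.exp_add]
    congr 1
    push_cast
    ring
  rw [h2]
  ring

lemma WW_PZ {α δ : ℝ} (hα : 0 < α) (Z : Finset NT) (hre : ∀ ρ : NT, (ρ : ℂ).re = 1 / 2)
    (hgen : ∀ γ ∈ Pool.Agent.P8H97.GW.Ord, ∀ γ' ∈ Pool.Agent.P8H97.GW.Ord, ∀ m : ℤ, m ≠ 0 →
      γ - γ' ≠ 2 * Real.pi * m * α) :
    Tendsto (WW α δ (fun v => ‖PZ Z v‖ ^ 2)) atTop (𝓝 (δ * ∑ ρ ∈ Z, tt ρ)) := by
  classical
  have hord : ∀ ρ : NT, (ρ : ℂ).im ∈ Pool.Agent.P8H97.GW.Ord := by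
    intro ρ
    change riemannZeta (⟨1 / 2, (ρ : ℂ).im⟩ : ℂ) = 0
    rw [← hre ρ]
    exact ρ.2.1
  have h1 : ∀ K : ℕ, ((WW α δ (fun v => ‖PZ Z v‖ ^ 2) K : ℝ) : ℂ) = ∑ ρ ∈ Z, ∑ ρ' ∈ Z,
      (((ρ : ℂ) * deriv riemannZeta ρ)⁻¹ * conj (((ρ' : ℂ) * deriv riemannZeta ρ')⁻¹)) *
        WC α δ (fun v => Complex.exp (((((ρ : ℂ).im - (ρ' : ℂ).im : ℝ)) : ℂ) * v * Complex.I))
          K := by
    intro K
    unfold WW WC
    rw [Complex.ofReal_div, Complex.ofReal_sum, Complex.ofReal_natCast]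
    have h2 : ∀ k : ℕ, ((∫ v in ((k : ℝ) / α)..((k : ℝ) / α + δ), ‖PZ Z v‖ ^ 2 : ℝ) : ℂ) =
        ∑ ρ ∈ Z, ∑ ρ' ∈ Z,
        (((ρ : ℂ) * deriv riemannZeta ρ)⁻¹ * conj (((ρ' : ℂ) * deriv riemannZeta ρ')⁻¹)) *
        ∫ v in ((k : ℝ) / α)..((k : ℝ) / α + δ),
          Complex.exp (((((ρ : ℂ).im - (ρ' : ℂ).im : ℝ)) : ℂ) * v * Complex.I) := by
      intro k
      rw [← intervalIntegral.integral_ofReal]
      simp only [PZ_sq Z hre]
      rw [intervalIntegral.integral_finsetSum]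
      · refine Finset.sum_congr rfl fun ρ _ => ?_
        rw [intervalIntegral.integral_finsetSum]
        · refine Finset.sum_congr rfl fun ρ' _ => ?_
          rw [intervalIntegral.integral_const_mul]
        · intro ρ' _
          exact Continuous.intervalIntegrable (by fun_prop) _ _
      · intro ρ _
        exact Continuous.intervalIntegrable (by fun_prop) _ _
    rw [Finset.sum_congr rfl fun k _ => h2 k, Finset.sum_comm, Finset.sum_div]
    refine Finset.sum_congr rfl fun ρ _ => ?_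
    rw [Finset.sum_comm, Finset.sum_div]
    refine Finset.sum_congr rfl fun ρ' _ => ?_
    rw [← Finset.mul_sum, mul_div_assoc]
  have h3 : ∀ ρ ρ' : NT, Tendsto (WC α δ (fun v =>
      Complex.exp (((((ρ : ℂ).im - (ρ' : ℂ).im : ℝ)) : ℂ) * v * Complex.I))) atTop
      (𝓝 (if ρ = ρ' then (δ : ℂ) else 0)) := by
    intro ρ ρ'
    by_cases h : ρ = ρ'
    · subst h
      have h4 := WC_one α δ 1
      rw [mul_one] at h4
      rw [if_pos rfl]
      have h5 : (fun v : ℝ => Complex.exp (((((ρ : ℂ).im - (ρ : ℂ).im : ℝ)) : ℂ) * v *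
          Complex.I)) = fun _ => 1 := by
        funext v
        simp
      rw [h5]
      exact h4
    · rw [if_neg h]
      apply WC_exp α δ _ hα
      intro m
      by_cases hm : m = 0
      · intro h5
        rw [hm] at h5
        simp only [Int.cast_zero, mul_zero, zero_mul] at h5
        apply h
        apply Subtype.ext
        apply Complex.ext
        · rw [hre, hre]
        · linarith
      · exact hgen _ (hord ρ) _ (hord ρ') m hm
  have h4 : Tendsto (fun K => ((WW α δ (fun v => ‖PZ Z v‖ ^ 2) K : ℝ) : ℂ)) atTop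
      (𝓝 (∑ ρ ∈ Z, ∑ ρ' ∈ Z,
      (((ρ : ℂ) * deriv riemannZeta ρ)⁻¹ * conj (((ρ' : ℂ) * deriv riemannZeta ρ')⁻¹)) *
        (if ρ = ρ' then (δ : ℂ) else 0))) := by
    simp only [h1]
    exact tendsto_finsetSum _ fun ρ _ => tendsto_finsetSum _ fun ρ' _ =>
      (h3 ρ ρ').const_mul _
  have h5 : (∑ ρ ∈ Z, ∑ ρ' ∈ Z,
      (((ρ : ℂ) * deriv riemannZeta ρ)⁻¹ * conj (((ρ' : ℂ) * deriv riemannZeta ρ')⁻¹)) *
        (if ρ = ρ' then (δ : ℂ) else 0)) = ((δ * ∑ ρ ∈ Z, tt ρ : ℝ) : ℂ) := by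
    rw [Complex.ofReal_mul, Complex.ofReal_sum, Finset.mul_sum]
    refine Finset.sum_congr rfl fun ρ hρ => ?_
    rw [Finset.sum_eq_single ρ]
    · rw [if_pos rfl, Complex.mul_conj', norm_inv]
      unfold tt
      push_cast
      rw [inv_pow]
      ring
    · intro ρ' _ h6
      rw [if_neg (Ne.symm h6), mul_zero]
    · intro h6
      exact absurd hρ h6
  rw [h5] at h4
  have h6 : Tendsto (fun K => Complex.re ((WW α δ (fun v => ‖PZ Z v‖ ^ 2) K : ℝ) : ℂ)) atTop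
      (𝓝 (Complex.re ((δ * ∑ ρ ∈ Z, tt ρ : ℝ) : ℂ))) :=
    (Complex.continuous_re.tendsto _).comp h4
  simp only [Complex.ofReal_re] at h6
  exact h6

/-- `M(e^v) e^{-v/2}` as a complex number -/
noncomputable def fc (v : ℝ) : ℂ :=
  ((Pool.Agent.Results.MP_323ce2_nt.AlmostPeriodicity.f v : ℝ) : ℂ)

lemma fc_def (v : ℝ) : fc v = ((Mx (Real.exp v) * Real.exp (-(v / 2)) : ℝ) : ℂ) := rfl

lemma fc_sq (v : ℝ) : ‖fc v‖ ^ 2 = ff v := by
  rw [fc_def, Complex.norm_real, Real.norm_eq_abs, sq_abs, mul_pow, ← Real.exp_nat_mul]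
  unfold ff
  congr 2
  push_cast
  ring

lemma fc_ii {a b : ℝ} (hab : a ≤ b) :
    IntervalIntegrable (fun v => Mx (Real.exp v) * Real.exp (-(v / 2))) volume a b := by
  apply ii_bdd (B := Real.exp b * Real.exp (-(a / 2)))
    ((Mx_meas.comp Real.measurable_exp).mul (by fun_prop)) hab
  intro x hx
  change |Mx (Real.exp x) * Real.exp (-(x / 2))| ≤ _
  rw [abs_mul, abs_of_pos (Real.exp_pos (-(x / 2)))]
  have h1 := (Mx_abs (Real.exp x) (Real.exp_pos x).le).trans (Real.exp_le_exp.mpr hx.2)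
  have h2 : Real.exp (-(x / 2)) ≤ Real.exp (-(a / 2)) :=
    Real.exp_le_exp.mpr (by linarith [hx.1])
  exact mul_le_mul h1 h2 (Real.exp_pos _).le (Real.exp_pos _).le

lemma diff_ii (Z : Finset NT) {a b : ℝ} (hab : a ≤ b) :
    IntervalIntegrable (fun v => ‖fc v - PZ Z v‖ ^ 2) volume a b := by
  have h1 : (fun v => ‖fc v - PZ Z v‖ ^ 2) = fun v => ff v -
      2 * ((Mx (Real.exp v) * Real.exp (-(v / 2))) * (PZ Z v).re) + ‖PZ Z v‖ ^ 2 := by
    funext v
    have h2 := fc_sq v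
    rw [← h2, fc_def]
    set x : ℝ := Mx (Real.exp v) * Real.exp (-(v / 2))
    have e1 : ‖(x : ℂ) - PZ Z v‖ ^ 2 = (x - (PZ Z v).re) ^ 2 + (PZ Z v).im ^ 2 := by
      rw [← Complex.normSq_eq_norm_sq, Complex.normSq_apply]
      simp
      ring
    have e2 : ‖PZ Z v‖ ^ 2 = (PZ Z v).re ^ 2 + (PZ Z v).im ^ 2 := by
      rw [← Complex.normSq_eq_norm_sq, Complex.normSq_apply]
      ring
    have e3 : ‖(x : ℂ)‖ ^ 2 = x ^ 2 := by
      rw [Complex.norm_real, Real.norm_eq_abs, sq_abs]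
    rw [e1, e2, e3]
    ring
  rw [h1]
  have hc := PZ_cont Z
  refine ((ff_ii hab).sub (((fc_ii hab).mul_continuousOn ?_).const_mul 2)).add ?_
  · exact (Complex.continuous_re.comp hc).continuousOn
  · exact Continuous.intervalIntegrable (by fun_prop) _ _

open Pool.Agent.Results.MP_323ce2_nt in
theorem lim : S_LIM := by
  intro hZC α δ hα hδ hδα hgen
  have hWM : AlmostPeriodicity.WeakMertens := ZeroSumCriterion.result.1.mpr hZC
  obtain ⟨hmean, -, -⟩ := AlmostPeriodicity.result.2.2 hWM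
  have hre : ∀ ρ : NT, (ρ : ℂ).re = 1 / 2 := fun ρ => (hZC.1 ρ ρ.2).1
  have hsum : Summable tt := hZC.2
  set S : ℝ := ∑' ρ : NT, tt ρ with hS
  change Tendsto (WW α δ ff) atTop (𝓝 (δ * S))
  have hS0 : 0 ≤ S := tsum_nonneg fun ρ => by unfold tt; positivity
  -- the tail
  have hD : ∀ Z : Finset NT, Tendsto (fun K : ℕ => 1 / α *
      ((∫ v in (0 : ℝ)..((K : ℝ) / α), ‖fc v - PZ Z v‖ ^ 2) / ((K : ℝ) / α))) atTop
      (𝓝 (1 / α * (S - ∑ ρ ∈ Z, tt ρ))) := by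
    intro Z
    have h1 := hmean (Z.map ⟨Subtype.val, Subtype.val_injective⟩) (by
      intro ρ hρ
      rw [Finset.mem_map] at hρ
      obtain ⟨ρ', -, rfl⟩ := hρ
      exact ρ'.2)
    simp only [Finset.sum_map, Function.Embedding.coeFn_mk] at h1
    have h2 : Tendsto (fun K : ℕ => (K : ℝ) / α) atTop atTop :=
      tendsto_natCast_atTop_atTop.atTop_div_const hα
    exact (h1.comp h2).const_mul (1 / α)
  have hdiffle : ∀ (Z : Finset NT) (K : ℕ), WW α δ (fun v => ‖fc v - PZ Z v‖ ^ 2) K ≤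
      1 / α * ((∫ v in (0 : ℝ)..((K : ℝ) / α), ‖fc v - PZ Z v‖ ^ 2) / ((K : ℝ) / α)) :=
    fun Z K => WW_le hα hδ hδα K (fun a b hab => diff_ii Z hab) fun v => sq_nonneg _
  have hPii : ∀ (Z : Finset NT) (a b : ℝ), a ≤ b →
      IntervalIntegrable (fun v => ‖PZ Z v‖ ^ 2) volume a b := by
    intro Z a b _
    have hc := PZ_cont Z
    exact Continuous.intervalIntegrable (by fun_prop) _ _
  have up : ∀ (η : ℝ), 0 < η → ∀ (Z : Finset NT) (K : ℕ), WW α δ ff K ≤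
      (1 + η) * WW α δ (fun v => ‖PZ Z v‖ ^ 2) K + (1 + 1 / η) * (1 / α *
      ((∫ v in (0 : ℝ)..((K : ℝ) / α), ‖fc v - PZ Z v‖ ^ 2) / ((K : ℝ) / α))) := by
    intro η hη Z K
    have h1 : WW α δ ff K ≤ WW α δ (fun v => (1 + η) * ‖PZ Z v‖ ^ 2 +
        (1 + 1 / η) * ‖fc v - PZ Z v‖ ^ 2) K := by
      apply WW_mono hδ K (fun a b hab => ff_ii hab)
      · intro a b hab
        exact ((hPii Z a b hab).const_mul _).add ((diff_ii Z hab).const_mul _)
      · intro v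
        rw [← fc_sq]
        exact sq_le hη
    rw [WW_lin hδ K _ _ (hPii Z) (fun a b hab => diff_ii Z hab)] at h1
    have h2 := mul_le_mul_of_nonneg_left (hdiffle Z K) (show 0 ≤ 1 + 1 / η by positivity)
    linarith
  have dn : ∀ (η : ℝ), 0 < η → ∀ (Z : Finset NT) (K : ℕ),
      WW α δ (fun v => ‖PZ Z v‖ ^ 2) K - (1 + 1 / η) * (1 / α *
      ((∫ v in (0 : ℝ)..((K : ℝ) / α), ‖fc v - PZ Z v‖ ^ 2) / ((K : ℝ) / α))) ≤
      (1 + η) * WW α δ ff K := by
    intro η hη Z K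
    have h1 : WW α δ (fun v => ‖PZ Z v‖ ^ 2) K ≤ WW α δ (fun v => (1 + η) * ff v +
        (1 + 1 / η) * ‖fc v - PZ Z v‖ ^ 2) K := by
      apply WW_mono hδ K (hPii Z)
      · intro a b hab
        exact ((ff_ii hab).const_mul _).add ((diff_ii Z hab).const_mul _)
      · intro v
        rw [← fc_sq, norm_sub_rev (fc v)]
        exact sq_le hη
    rw [WW_lin hδ K _ _ (fun a b hab => ff_ii hab) (fun a b hab => diff_ii Z hab)] at h1
    have h2 := mul_le_mul_of_nonneg_left (hdiffle Z K) (show 0 ≤ 1 + 1 / η by positivity)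
    linarith
  have hZlim : Tendsto (fun Z : Finset NT => ∑ ρ ∈ Z, tt ρ) atTop (𝓝 S) := hsum.hasSum
  rw [tendsto_order]
  constructor
  · intro a ha
    -- choose η
    have h1 : Tendsto (fun η : ℝ => (1 + η) * a) (𝓝[>] 0) (𝓝 ((1 + 0) * a)) := by
      apply Tendsto.mono_left _ nhdsWithin_le_nhds
      exact Continuous.tendsto' (by fun_prop) _ _ rfl
    rw [add_zero, one_mul] at h1
    obtain ⟨η, hη1, hη⟩ := ((h1.eventually (gt_mem_nhds ha)).and self_mem_nhdsWithin).exists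
    have hη0 : 0 < η := hη
    -- choose Z
    have h2 : Tendsto (fun Z : Finset NT => δ * (∑ ρ ∈ Z, tt ρ) - (1 + 1 / η) *
        (1 / α * (S - ∑ ρ ∈ Z, tt ρ))) atTop
        (𝓝 (δ * S - (1 + 1 / η) * (1 / α * (S - S)))) :=
      (hZlim.const_mul δ).sub (((tendsto_const_nhds.sub hZlim).const_mul (1 / α)).const_mul _)
    rw [sub_self, mul_zero, mul_zero, sub_zero] at h2
    obtain ⟨Z, hZ⟩ := (h2.eventually (lt_mem_nhds hη1)).exists
    have h3 := (WW_PZ hα Z hre hgen (δ := δ)).sub ((hD Z).const_mul (1 + 1 / η))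
    filter_upwards [h3.eventually (lt_mem_nhds hZ)] with K hK
    have h4 := lt_of_lt_of_le hK (dn η hη0 Z K)
    exact lt_of_mul_lt_mul_left h4 (by linarith)
  · intro a ha
    have h1 : Tendsto (fun η : ℝ => (1 + η) * (δ * S)) (𝓝[>] 0) (𝓝 ((1 + 0) * (δ * S))) := by
      apply Tendsto.mono_left _ nhdsWithin_le_nhds
      exact Continuous.tendsto' (by fun_prop) _ _ rfl
    rw [add_zero, one_mul] at h1
    obtain ⟨η, hη1, hη⟩ := ((h1.eventually (gt_mem_nhds ha)).and self_mem_nhdsWithin).exists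
    have hη0 : 0 < η := hη
    have h2 : Tendsto (fun Z : Finset NT => (1 + η) * (δ * (∑ ρ ∈ Z, tt ρ)) + (1 + 1 / η) *
        (1 / α * (S - ∑ ρ ∈ Z, tt ρ))) atTop
        (𝓝 ((1 + η) * (δ * S) + (1 + 1 / η) * (1 / α * (S - S)))) :=
      ((hZlim.const_mul δ).const_mul _).add
        (((tendsto_const_nhds.sub hZlim).const_mul (1 / α)).const_mul _)
    rw [sub_self, mul_zero, mul_zero, add_zero] at h2
    obtain ⟨Z, hZ⟩ := (h2.eventually (gt_mem_nhds hη1)).exists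
    have h3 := ((WW_PZ hα Z hre hgen (δ := δ)).const_mul (1 + η)).add
      ((hD Z).const_mul (1 + 1 / η))
    filter_upwards [h3.eventually (gt_mem_nhds hZ)] with K hK
    exact lt_of_le_of_lt (up η hη0 Z K) hK

end Pool.Agent.P8H52.GW
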