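import Pool.Agent.P8H52.GW.Low
import Pool.Agent.P8H97.GW.Stm2

/-!
# Project GW: a lower bound for `ζ` in terms of the distance to the zeros
-/

set_option autoImplicit false

open Complex Metric Set Filter Topology

namespace Pool.Agent.P8H52.GW

open Pool.Agent.P8H97.GW Pool.Agent.W66 H370 H370.Loc

theorem low2 : S_LOW2 := by
  obtain ⟨c0, hc0, hc01, hl⟩ := Z1_low
  obtain ⟨K0, hK0, hball⟩ := Z1_ball
  set q : ℝ := Real.log ((7 / 4) / (8 / 5)) with hq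
  have hq0 : 0 < q := Real.log_pos (by norm_num)
  set L1 : ℝ := Real.log (8 / 5) with hL1
  have hL10 : 0 ≤ L1 := Real.log_nonneg (by norm_num)
  set L2 : ℝ := Real.log ((8 / 5) / (7 / 4 - 8 / 5)) with hL2
  have hL20 : 0 ≤ L2 := Real.log_nonneg (by norm_num)
  set L3 : ℝ := Real.log 3 with hL3
  have hL30 : 0 ≤ L3 := Real.log_nonneg (by norm_num)
  set L0 : ℝ := Real.log (1 / c0) with hL0
  have hL00 : 0 ≤ L0 := Real.log_nonneg (by rw [le_div_iff₀ hc0]; linarith)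
  set K1 : ℝ := K0 / q with hK1
  have hK10 : 0 < K1 := by positivity
  set A : ℝ := K1 * L1 + 30 * (K0 + K1 * L2 + 1) + L3 + L0 with hA
  have hA0 : 0 < A := by positivity
  refine ⟨K1 + A, by positivity, ?_⟩
  intro hRH t σ d hσ1 hσ2 hd0 hd1 hdist
  obtain ⟨M, hM1, hMb, hlog0, hlogK⟩ := hball t
  have hel := one_le_ell t
  have hfc : Z1 ⟨2, t⟩ ≠ 0 := by
    intro h
    have := hl t
    rw [h, norm_zero] at this
    linarith
  have hmemc : (⟨2, t⟩ : ℂ) ∈ closedBall (⟨2, t⟩ : ℂ) (7 / 4) := mem_closedBall_self (by norm_num)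
  obtain ⟨n, hn, hlow⟩ := lower_gen (f := Z1) (c := ⟨2, t⟩) (r1 := 3 / 2) (r := 8 / 5)
    (R := 7 / 4) (M := M) (by norm_num) (by norm_num) (by norm_num) (by norm_num) hM1
    (hMb _ hmemc) (fun z _ => (Z1_diff.analyticAt z)) hfc hMb
  have hnK : (n : ℝ) ≤ K1 * ell t := by
    refine hn.trans ?_
    rw [hK1, div_mul_eq_mul_div, div_le_div_iff_of_pos_right hq0]
    exact hlogK
  have hz : (⟨σ, t⟩ : ℂ) ∈ closedBall (⟨2, t⟩ : ℂ) (3 / 2) := by
    rw [mem_closedBall, dist_eq_norm]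
    have : (⟨σ, t⟩ : ℂ) - ⟨2, t⟩ = ((σ - 2 : ℝ) : ℂ) := by
      apply Complex.ext <;> simp
    rw [this, Complex.norm_real, Real.norm_eq_abs, abs_le]
    constructor <;> linarith
  have h1 := hlow _ hz d hd0 (by
    intro ρ hρ hρ0
    rw [mem_closedBall, dist_eq_norm] at hρ
    have h2 := (Complex.abs_re_le_norm (ρ - ⟨2, t⟩)).trans hρ
    simp only [sub_re] at h2
    rw [abs_le] at h2
    have hne : ρ ≠ 1 := by
      rintro rfl
      rw [Z1_one] at hρ0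
      exact one_ne_zero hρ0
    rw [Z1_eq hne] at hρ0
    have hζ : riemannZeta ρ = 0 := (mul_eq_zero.mp hρ0).resolve_left (sub_ne_zero.mpr hne)
    have hre : ρ.re = 1 / 2 := by
      apply hRH ρ hζ _ hne
      rintro ⟨m, hm⟩
      have h3 := congrArg Complex.re hm
      simp at h3
      have : (0 : ℝ) ≤ m := Nat.cast_nonneg m
      linarith [h2.1]
    have hmem : ρ.im ∈ Pool.Agent.P8H97.GW.Ord := by
      change riemannZeta (⟨1 / 2, ρ.im⟩ : ℂ) = 0
      rw [← hre]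
      exact hζ
    have h4 := hdist _ hmem
    have h5 : (⟨1 / 2, ρ.im⟩ : ℂ) = ρ := by
      rw [← hre]
    rwa [h5] at h4)
  have hne1 : (⟨σ, t⟩ : ℂ) ≠ 1 := by
    intro h
    have := congrArg Complex.re h
    simp at this
    linarith
  have hne0 : (⟨σ, t⟩ : ℂ) ≠ 0 := by
    intro h
    have := congrArg Complex.re h
    simp at this
    linarith
  have hZ : 0 < ‖Z1 ⟨σ, t⟩‖ := by
    refine lt_of_lt_of_le ?_ h1
    have : 0 < ‖Z1 ⟨2, t⟩‖ := norm_pos_iff.mpr hfc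
    positivity
  -- the quotient
  have hs1 : 1 / 2 ≤ ‖(⟨σ, t⟩ : ℂ)‖ := by
    have := Complex.abs_re_le_norm (⟨σ, t⟩ : ℂ)
    simp only at this
    have h2 := le_abs_self σ
    linarith
  have hs2 : ‖(⟨σ, t⟩ : ℂ) - 1‖ ≤ 3 * ‖(⟨σ, t⟩ : ℂ)‖ := by
    have h2 := norm_sub_le (⟨σ, t⟩ : ℂ) 1
    rw [norm_one] at h2
    linarith
  have hGG : ‖GG ⟨σ, t⟩‖ ≤ 3 / ‖Z1 ⟨σ, t⟩‖ := by
    have hζ0 : riemannZeta ⟨σ, t⟩ ≠ 0 := by
      intro h3
      rw [Z1_eq hne1, h3, mul_zero, norm_zero] at hZ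
      exact lt_irrefl _ hZ
    have h2 : GG ⟨σ, t⟩ = ((⟨σ, t⟩ : ℂ) - 1) / ((⟨σ, t⟩ : ℂ) * Z1 ⟨σ, t⟩) := by
      unfold GG
      have hne : (⟨σ, t⟩ : ℂ) - 1 ≠ 0 := sub_ne_zero.mpr hne1
      rw [Z1_eq hne1]
      field_simp
    rw [h2, norm_div, norm_mul]
    have hs0 : 0 < ‖(⟨σ, t⟩ : ℂ)‖ := by linarith
    rw [div_le_div_iff₀ (by positivity) hZ]
    nlinarith [norm_nonneg ((⟨σ, t⟩ : ℂ) - 1)]
  refine hGG.trans ?_
  rw [div_le_iff₀ hZ]
  refine le_trans ?_ (mul_le_mul_of_nonneg_left h1 (Real.exp_pos _).le)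
  -- everything in the exponent
  set X := Real.log (M / ‖Z1 ⟨2, t⟩‖) with hX
  have hd : d ^ n = Real.exp (-(n * Real.log (1 / d))) := by
    rw [one_div, Real.log_inv, mul_neg, neg_neg, Real.exp_nat_mul, Real.exp_log hd0]
  have hr : ((8 : ℝ) / 5) ^ n = Real.exp (n * L1) := by
    rw [Real.exp_nat_mul, hL1, Real.exp_log (by norm_num)]
  have hc : Real.exp (-L0) ≤ ‖Z1 ⟨2, t⟩‖ := by
    rw [hL0, one_div, Real.log_inv, neg_neg, Real.exp_log hc0]
    exact hl t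
  have h3 : (3 : ℝ) = Real.exp L3 := by rw [hL3, Real.exp_log (by norm_num)]
  have hld : 0 ≤ Real.log (1 / d) := Real.log_nonneg (by rw [le_div_iff₀ hd0]; linarith)
  have hmain : L3 ≤ (K1 + A) * Real.log (|t| + 3) * (1 + Real.log (1 / d)) +
      (-(n * Real.log (1 / d)) + ((-L0 - n * L1) +
        -(2 * ((X + n * L2) + 1) * (3 / 2) / (8 / 5 - 3 / 2)))) := by
    have e1 : (2 * ((X + n * L2) + 1) * (3 / 2) / (8 / 5 - 3 / 2)) = 30 * (X + n * L2 + 1) := by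
      ring
    rw [e1]
    change L3 ≤ (K1 + A) * ell t * (1 + Real.log (1 / d)) + _
    have a1 : n * Real.log (1 / d) ≤ K1 * ell t * Real.log (1 / d) :=
      mul_le_mul_of_nonneg_right hnK hld
    have a2 : n * L1 ≤ K1 * ell t * L1 := mul_le_mul_of_nonneg_right hnK hL10
    have a3 : n * L2 ≤ K1 * ell t * L2 := mul_le_mul_of_nonneg_right hnK hL20
    have a4 : L3 ≤ L3 * ell t := le_mul_of_one_le_right hL30 hel
    have a5 : L0 ≤ L0 * ell t := le_mul_of_one_le_right hL00 hel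
    have a6 : 0 ≤ A * ell t * Real.log (1 / d) := by positivity
    have a7 : 0 ≤ K1 * ell t := by positivity
    have a8 : A * ell t = K1 * ell t * L1 + 30 * (K0 * ell t) + 30 * (K1 * ell t * L2) +
      30 * ell t + L3 * ell t + L0 * ell t := by rw [hA]; ring
    have a9 : (K1 + A) * ell t * (1 + Real.log (1 / d)) = K1 * ell t +
      K1 * ell t * Real.log (1 / d) + A * ell t + A * ell t * Real.log (1 / d) := by ring
    rw [a9]
    clear_value A X L0 L1 L2 L3 K1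
    linarith only [a1, a2, a3, a4, a5, a6, a7, a8, hlogK, hel]
  calc (3 : ℝ) = Real.exp L3 := h3
    _ ≤ Real.exp ((K1 + A) * Real.log (|t| + 3) * (1 + Real.log (1 / d)) +
      (-(n * Real.log (1 / d)) + ((-L0 - n * L1) +
        -(2 * ((X + n * L2) + 1) * (3 / 2) / (8 / 5 - 3 / 2))))) := Real.exp_le_exp.mpr hmain
    _ = Real.exp ((K1 + A) * Real.log (|t| + 3) * (1 + Real.log (1 / d))) * (d ^ n *
        (Real.exp (-L0) / (8 / 5) ^ n * Real.exp (-(2 * ((X + n * L2) + 1) * (3 / 2) /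
          (8 / 5 - 3 / 2))))) := by
        rw [Real.exp_add, Real.exp_add, Real.exp_add, hd, hr, Real.exp_sub]
    _ ≤ _ := by
        gcongr

end Pool.Agent.P8H52.GW
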