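import Pool.Agent.P8H52.GW.Rhw
import Pool.Agent.P8H97.GW.Stm2

/-!
# Project GW: the bound on the windows for infinitely many `K` implies the Riemann hypothesis
-/

set_option autoImplicit false

open Set Filter Topology MeasureTheory

namespace Pool.Agent.P8H52.GW

open Pool.Agent.P8H97.GW

theorem rhw2 : S_RHW2 := by
  intro α δ hα hδ hW
  obtain ⟨C, hC⟩ := hW
  by_contra hRH
  have hz : ∃ s : ℂ, riemannZeta s = 0 ∧ 1 / 2 < s.re := by
    by_contra h
    push Not at h
    exact hRH (Pool.Agent.W190.rh_free.mpr fun s hs h0 => absurd hs (not_lt.mpr (h s h0)))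
  obtain ⟨s, hs0, hs⟩ := hz
  set θ : ℝ := (1 / 2 + s.re) / 2 with hθ
  have hθ1 : 1 / 2 < θ := by rw [hθ]; linarith
  have hθs : θ < s.re := by rw [hθ]; linarith
  set θ' : ℝ := (1 / 2 + θ) / 2 with hθ'
  have hθ'1 : 1 / 2 < θ' := by rw [hθ']; linarith
  have hθ'2 : θ' < θ := by rw [hθ']; linarith
  have hc : 0 < Real.exp δ - 1 := by
    have := Real.add_one_lt_exp hδ.ne'
    linarith
  have h1 := Pool.Agent.W190.moebius_window (κ := 0) (δ := 0) le_rfl hc (by norm_num) hθ1.le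
    (by nlinarith [sq_nonneg (2 * θ - 1)]) ⟨s, hs0, hθs⟩
  have hx : Tendsto (fun k : ℕ => Real.exp ((k : ℝ) / α)) atTop atTop :=
    Real.tendsto_exp_atTop.comp (tendsto_natCast_atTop_atTop.atTop_div_const hα)
  have h2 := hx.eventually h1
  -- the integrals over the single windows
  have hone : ∃ᶠ k : ℕ in atTop, ∫ v in ((k : ℝ) / α)..((k : ℝ) / α + δ), ff v ≤
      C * ((k : ℝ) + 1) := by
    rw [frequently_atTop] at hC ⊢
    intro N
    obtain ⟨K, hK1, hK2⟩ := hC (N + 1)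
    obtain ⟨k, rfl⟩ : ∃ k, K = k + 1 := ⟨K - 1, by omega⟩
    refine ⟨k, by omega, ?_⟩
    have h3 := hK2
    rw [Finset.sum_range_succ] at h3
    have h4 : 0 ≤ ∑ x ∈ Finset.range k, ∫ v in ((x : ℝ) / α)..((x : ℝ) / α + δ), ff v :=
      Finset.sum_nonneg fun x _ => intervalIntegral.integral_nonneg (by linarith)
        fun v _ => ff_nonneg v
    push_cast at h3
    linarith
  -- the upper bound
  have h3 : ∀ k : ℕ, (∫ v in ((k : ℝ) / α)..((k : ℝ) / α + δ), ff v ≤ C * ((k : ℝ) + 1)) →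
      ∫ y in (Real.exp ((k : ℝ) / α))..(Real.exp ((k : ℝ) / α) +
      (Real.exp δ - 1) * Real.exp ((k : ℝ) / α)), |Mx y| ≤
      (Real.exp (θ' * (k / α)) * ((Real.exp δ - 1) * Real.exp (k / α)) +
        Real.exp (-(θ' * (k / α))) * (Real.exp (2 * (k / α + δ)) * (C * (k + 1)))) / 2 := by
    intro k hk
    have e1 : Real.exp ((k : ℝ) / α) + (Real.exp δ - 1) * Real.exp ((k : ℝ) / α) =
        Real.exp ((k : ℝ) / α + δ) := by
      rw [Real.exp_add]; ring
    rw [e1]
    refine (key (T := Real.exp (θ' * (k / α))) (by linarith) (Real.exp_pos _)).trans ?_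
    rw [← Real.exp_neg]
    have e2 : Real.exp ((k : ℝ) / α + δ) - Real.exp ((k : ℝ) / α) =
        (Real.exp δ - 1) * Real.exp ((k : ℝ) / α) := by
      rw [Real.exp_add]; ring
    rw [e2]
    gcongr
  have h4 : ∀ᶠ k : ℕ in atTop,
      (∫ v in ((k : ℝ) / α)..((k : ℝ) / α + δ), ff v ≤ C * ((k : ℝ) + 1)) →
      1 < ((Real.exp δ - 1) * Real.exp (-((θ - θ') / α)) ^ k +
      Real.exp (2 * δ) * C * (((k : ℝ) + 1) * Real.exp (-((θ + θ' - 1) / α)) ^ k)) / 2 := by
    filter_upwards [h2] with k hk hk'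
    have h5 := hk 0 (by simp)
    simp only [Real.rpow_zero, div_one, Polynomial.eval_zero, sub_zero] at h5
    have h6 := lt_of_lt_of_le h5 (h3 k hk')
    rw [← Real.exp_mul] at h6
    have hE : 0 < Real.exp ((k : ℝ) / α * (1 + θ)) := Real.exp_pos _
    have h7 : 1 < ((Real.exp (θ' * (k / α)) * ((Real.exp δ - 1) * Real.exp (k / α)) +
        Real.exp (-(θ' * (k / α))) * (Real.exp (2 * (k / α + δ)) * (C * (k + 1)))) / 2) /
        Real.exp ((k : ℝ) / α * (1 + θ)) := by
      rw [lt_div_iff₀ hE, one_mul]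
      exact h6
    refine lt_of_lt_of_le h7 (le_of_eq ?_)
    rw [div_eq_mul_inv _ (Real.exp ((k : ℝ) / α * (1 + θ))), ← Real.exp_neg, ← Real.exp_nat_mul,
      ← Real.exp_nat_mul]
    have e3 : Real.exp (θ' * (k / α)) * Real.exp (k / α) * Real.exp (-((k : ℝ) / α * (1 + θ))) =
        Real.exp (k * -((θ - θ') / α)) := by
      rw [← Real.exp_add, ← Real.exp_add]
      congr 1
      field_simp
      ring
    have e4 : Real.exp (-(θ' * (k / α))) * Real.exp (2 * (k / α + δ)) *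
        Real.exp (-((k : ℝ) / α * (1 + θ))) =
        Real.exp (2 * δ) * Real.exp (k * -((θ + θ' - 1) / α)) := by
      rw [← Real.exp_add, ← Real.exp_add, ← Real.exp_add]
      congr 1
      field_simp
      ring
    linear_combination ((Real.exp δ - 1) / 2) * e3 + (C * (k + 1) / 2) * e4
  have hr1 : Real.exp (-((θ - θ') / α)) < 1 := by
    rw [Real.exp_lt_one_iff]
    have : 0 < (θ - θ') / α := div_pos (by linarith) hα
    linarith
  have hr2 : Real.exp (-((θ + θ' - 1) / α)) < 1 := by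
    rw [Real.exp_lt_one_iff]
    have : 0 < (θ + θ' - 1) / α := div_pos (by linarith) hα
    linarith
  have t1 := tendsto_pow_atTop_nhds_zero_of_lt_one (Real.exp_pos _).le hr1
  have t2 := tendsto_pow_atTop_nhds_zero_of_lt_one (Real.exp_pos _).le hr2
  have t3 := tendsto_self_mul_const_pow_of_lt_one (Real.exp_pos _).le hr2
  have t4 : Tendsto (fun k : ℕ => ((Real.exp δ - 1) * Real.exp (-((θ - θ') / α)) ^ k +
      Real.exp (2 * δ) * C * (((k : ℝ) + 1) * Real.exp (-((θ + θ' - 1) / α)) ^ k)) / 2) atTop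
      (𝓝 (((Real.exp δ - 1) * 0 + Real.exp (2 * δ) * C * (0 + 0)) / 2)) := by
    have t5 : Tendsto (fun k : ℕ => ((k : ℝ) + 1) * Real.exp (-((θ + θ' - 1) / α)) ^ k) atTop
        (𝓝 (0 + 0)) := by
      have := t3.add t2
      refine this.congr fun k => ?_
      ring
    exact ((t1.const_mul _).add (t5.const_mul _)).div_const 2
  have t6 : ((Real.exp δ - 1) * 0 + Real.exp (2 * δ) * C * (0 + 0)) / 2 < (1 : ℝ) := by simp
  have h8 := t4.eventually (gt_mem_nhds t6)
  obtain ⟨k, hk0, hk1, hk2⟩ := (hone.and_eventually (h4.and h8)).exists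
  exact lt_asymm (hk1 hk0) hk2

end Pool.Agent.P8H52.GW
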